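import Pool.Agent.Q62.AnisoMain

set_option autoImplicit false

/-!
# Existence of optimal anisotropies for the anisotropic Cheeger constant

For every dimension `N ≥ 1` and every bounded set `Ω` of `ℝ^N` (open or not, convex or not) the
functional `𝒥_Ω[K] = h_K(Ω) |K°|^{1/N}` has a minimiser in the class `𝒦_N` of the nonempty open
bounded convex sets that are symmetric about the origin. For `N ≥ 3` and `Ω` open, bounded and
convex this is the affirmative answer to the question.

Idea: if `y ∈ K` and `Ω` lies in the ball of radius `R`, the field `x ↦ (x · y) y / (2 R |y|)` (cut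
off outside the ball) has values in `K` and divergence `|y| / (2 R)`, so `h_K(Ω) ≥ |y| / (2 R)`:
a minimising sequence `K_n`, normalised by `|K_n°| = 1`, is bounded. Hence the polar sets contain a
fixed ball, and being convex of volume `1` they lie in a fixed ball. So the polar norms are
equivalent to the Euclidean norm with uniform constants, a subsequence (or an ultrafilter) converges
uniformly on the sphere, and `h_K(Ω)` and `|K°|` are continuous under this convergence.
-/

namespace Pool.Agent.Results.MP_302605_an.OptimalAnisotropy

open Pool.Agent.Q62.Aniso

theorem result (N : ℕ) (hN : 1 ≤ N) (Ω : Set (EuclideanSpace ℝ (Fin N)))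
    (hΩ : Bornology.IsBounded Ω) :
    ∃ K₀ : Set (EuclideanSpace ℝ (Fin N)), IsAnisotropy K₀ ∧
      ∀ K : Set (EuclideanSpace ℝ (Fin N)), IsAnisotropy K → J Ω K₀ ≤ J Ω K :=
  main (by omega) hΩ

end Pool.Agent.Results.MP_302605_an.OptimalAnisotropy
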